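import Mathlib

set_option autoImplicit false

namespace Pool.Agent.H.MP_f934c9_lc

/-- connected, and any two vertices are joined by exactly one shortest path -/
def Geo {X : Type} (G : SimpleGraph X) : Prop :=
  G.Connected ∧ ∀ u v, ∃! p : G.Walk u v, p.IsPath ∧ p.length = G.dist u v

lemma geo_of {X : Type} [Nonempty X] (G : SimpleGraph X) (d : X → X → ℕ) (h0 : ∀ x y, d x y = 0 ↔ y = x)
    (h1 : ∀ x y z, G.Adj y z → d x y ≤ d x z + 1) (h2 : ∀ x y, y ≠ x → ∃! z, G.Adj y z ∧ d x z + 1 = d x y) :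
    Geo G := by
  have a : ∀ x y (p : G.Walk y x), d x y ≤ p.length := fun x y p => by
    induction p with
    | nil => exact ((h0 _ _).2 rfl).le
    | cons h p ih => exact (h1 _ _ _ h).trans (Nat.succ_le_succ ih)
  have b : ∀ x n y, d x y = n → ∃! p : G.Walk y x, p.length = n := fun x n => by
    induction n with
    | zero =>
      intro y h
      obtain rfl := (h0 _ _).1 h
      exact ⟨.nil, rfl, fun p hp => (SimpleGraph.Walk.length_eq_zero_iff.1 hp).eq_nil⟩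
    | succ n ih =>
      intro y h
      obtain ⟨z, ⟨z1, z2⟩, z3⟩ := h2 x y fun e => by rw [(h0 _ _).2 e] at h; omega
      obtain ⟨p, p1, p2⟩ := ih z (by omega)
      refine ⟨.cons z1 p, by simp [p1], fun q hq => ?_⟩
      cases q with
      | nil => simp at hq
      | cons e q =>
        rw [SimpleGraph.Walk.length_cons] at hq
        obtain rfl := z3 _ ⟨e, by have := a _ _ q; have := h1 x _ _ e; omega⟩
        rw [p2 q (by omega)]
  have c : ∀ u v, G.Reachable u v := fun u v => ⟨(b v _ u rfl).exists.choose⟩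
  refine ⟨⟨c⟩, fun u v => ?_⟩
  obtain ⟨p, p1, p2⟩ := b v _ u rfl
  obtain ⟨q, hq⟩ := (c u v).exists_walk_length_eq_dist
  have e : d v u = G.dist u v := (hq ▸ a _ _ q).antisymm (p1 ▸ SimpleGraph.dist_le p)
  exact ⟨p, ⟨p.isPath_of_length_eq_dist (p1.trans e), p1.trans e⟩, fun q hq => p2 q (hq.2.trans e.symm)⟩

lemma Geo.iso {X Y : Type} {G : SimpleGraph X} {H : SimpleGraph Y} (e : G ≃g H) (d : Y → Y → ℕ) [Nonempty Y]
    (h0 : ∀ x y, d x y = 0 ↔ y = x) (h1 : ∀ x y z, H.Adj y z → d x y ≤ d x z + 1)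
    (h2 : ∀ x y, y ≠ x → ∃! z, H.Adj y z ∧ d x z + 1 = d x y) : Geo G := by
  have := e.toEquiv.nonempty
  refine geo_of G (fun x y => d (e x) (e y)) (by simp [h0]) (fun x y z h => h1 _ _ _ (e.map_rel_iff.2 h))
    fun x y h => ?_
  obtain ⟨z, a, b⟩ := h2 (e x) (e y) (by simpa using h)
  obtain ⟨z, rfl⟩ := e.surjective z
  exact ⟨z, ⟨e.map_rel_iff.1 a.1, a.2⟩, fun w c => e.injective (b _ ⟨e.map_rel_iff.2 c.1, c.2⟩)⟩

variable {P Λ : Type} (o : Λ) (I : P → Λ → Prop)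

def Ok (S : Set P) (Ls : Set Λ) (x : P × Λ) : Prop := x.1 ∈ S ∧ (x.2 = o ∨ x.2 ∈ Ls ∧ I x.1 x.2)
def A (x y : P × Λ) : Prop := x ≠ y ∧ (x.1 = y.1 ∧ (x.2 = o ∨ y.2 = o) ∨ x.2 = y.2 ∧ x.2 ≠ o)

def F (S : Set P) (Ls : Set Λ) : SimpleGraph {x // Ok o I S Ls x} where
  Adj x y := A o x.1 y.1
  symm := ⟨fun x y h => by unfold A at *; grind⟩
  loopless := ⟨fun _ h => h.1 rfl⟩

open Classical in
noncomputable def dd (x y : P × Λ) : ℕ :=
  if x.1 = y.1 ∧ x.2 = y.2 then 0 else if x.2 = o then (if y.2 = o then 3 else if x.1 = y.1 then 1 else if I x.1 y.2 then 2 else 4)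
  else if y.2 = o then (if x.1 = y.1 then 1 else if I y.1 x.2 then 2 else 4)
  else if x.2 = y.2 then 1 else if x.1 = y.1 then 2 else if I x.1 y.2 ∨ I y.1 x.2 then 3
  else if ∃ r, I r x.2 ∧ I r y.2 then 4 else 5

section
variable {o I} {S : Set P} {Ls : Set Λ} (h0 : ∀ p, ¬I p o) (h1 : ∀ L ∈ Ls, ∀ p, I p L → p ∈ S)
  (h2 : ∀ p ∈ S, ∀ q ∈ S, p ≠ q → ∃ L ∈ Ls, I p L ∧ I q L)
  (h3 : ∀ L ∈ Ls, ∀ M ∈ Ls, ∀ a b, I a L → I b L → I a M → I b M → a = b ∨ L = M)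

lemma dd1 {x y z : P × Λ} (hx : Ok o I S Ls x) (hy : Ok o I S Ls y) (hz : Ok o I S Ls z) (h : A o y z) :
    dd o I x y ≤ dd o I x z + 1 := by
  obtain ⟨p, L⟩ := x
  obtain ⟨q, M⟩ := y
  obtain ⟨r, N⟩ := z
  simp only [Ok, A, dd, ne_eq, Prod.mk.injEq] at *
  obtain ⟨n, ⟨rfl, rfl | rfl⟩ | ⟨rfl, n'⟩⟩ := h <;> split_ifs <;> first | omega | grind

include h0 h3 in
lemma dd2' {p q r : P} {L M N : Λ} (hx : Ok o I S Ls (p, L)) (hy : Ok o I S Ls (q, M)) (hz : Ok o I S Ls (r, N))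
    (h : A o (q, M) (r, N)) (e : dd o I (p, L) (r, N) + 1 = dd o I (p, L) (q, M)) :
    (A o (q, M) (p, L) → r = p ∧ N = L) ∧ (¬A o (q, M) (p, L) → (M = o → r = q ∧ N ∈ Ls ∧ I q N ∧ (I q L → N = L) ∧
      (¬I q L → I p N ∧ p ≠ q)) ∧ (M ≠ o → (I p M ∧ p ≠ q → r = p ∧ N = M) ∧ (¬(I p M ∧ p ≠ q) →
      (N = M ∧ I r L ∧ I r M ∧ L ≠ M ∧ L ∈ Ls ∧ M ∈ Ls ∧ ¬I q L ∧ p ≠ q) ∨
      (r = q ∧ N = o ∧ (I q L ∨ p = q ∨ ∀ r, I r L → ¬I r M))))) := by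
  have a2 := fun a b => h3 L a M b p q
  have a3 := fun a b => h3 L a M b r q
  have a6 := fun a b => h3 L a M b r p
  clear h3
  simp only [Ok, A, dd, ne_eq, Prod.mk.injEq] at *
  obtain ⟨n, ⟨rfl, rfl | rfl⟩ | ⟨rfl, n'⟩⟩ := h <;> split_ifs at e <;> first | omega | grind

include h0 h3 in
lemma dd2 {x y z w : P × Λ} (hx : Ok o I S Ls x) (hy : Ok o I S Ls y) (hz : Ok o I S Ls z) (hw : Ok o I S Ls w)
    (h : A o y z) (h' : A o y w) (e : dd o I x z + 1 = dd o I x y) (e' : dd o I x w + 1 = dd o I x y) : z = w := by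
  obtain ⟨p, L⟩ := x
  obtain ⟨q, M⟩ := y
  obtain ⟨r, N⟩ := z
  obtain ⟨s, K⟩ := w
  have a1 := fun a b => h3 N a K b p q
  have a5 := fun a b => h3 L a M b r s
  have := dd2' h0 h3 hx hy hz h e
  have := dd2' h0 h3 hx hy hw h' e'
  clear h3 e e' h h' hx hy hz hw
  by_cases c1 : A o (q, M) (p, L) <;> by_cases c2 : M = o <;> by_cases c3 : I q L <;>
    by_cases c4 : I p M ∧ p ≠ q <;> grind

include h0 h1 h2 h3 in
lemma dd3 {x y : P × Λ} (hx : Ok o I S Ls x) (hy : Ok o I S Ls y) (n : y ≠ x) :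
    ∃ z, Ok o I S Ls z ∧ A o y z ∧ dd o I x z + 1 = dd o I x y := by
  obtain ⟨p, L⟩ := x
  obtain ⟨q, M⟩ := y
  have a2 := fun a b => h3 L a M b p q
  clear h3
  by_cases c1 : A o (q, M) (p, L)
  · exact ⟨_, hx, c1, by simp only [Ok, A, dd, ne_eq, Prod.mk.injEq] at *; split_ifs <;> grind⟩
  by_cases c2 : M = o
  · by_cases c3 : I q L
    · exact ⟨(q, L), by simp only [Ok, A, dd, ne_eq, Prod.mk.injEq] at *; split_ifs <;> grind⟩
    · obtain ⟨N, a, b, c⟩ := h2 p hx.1 q hy.1 (by simp only [Ok, A, ne_eq, Prod.mk.injEq] at *; grind)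
      exact ⟨(q, N), by simp only [Ok, A, dd, ne_eq, Prod.mk.injEq] at *; split_ifs <;> grind⟩
  by_cases c3 : I p M ∧ p ≠ q
  · exact ⟨(p, M), by simp only [Ok, A, dd, ne_eq, Prod.mk.injEq] at *; split_ifs <;> grind⟩
  by_cases c4 : ¬I q L ∧ p ≠ q ∧ ∃ r, I r L ∧ I r M
  · obtain ⟨c4, c5, r, c6, c7⟩ := c4
    have := h1 M (by simp only [Ok] at hy; grind) r c7
    exact ⟨(r, M), by simp only [Ok, A, dd, ne_eq, Prod.mk.injEq] at *; split_ifs <;> grind⟩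
  · exact ⟨(q, o), by simp only [Ok, A, dd, ne_eq, Prod.mk.injEq] at *; split_ifs <;> grind⟩

include h0 h1 h2 h3 in
lemma geoF {X : Type} {G : SimpleGraph X} (e : G ≃g F o I S Ls) (h : S.Nonempty) : Geo G := by
  obtain ⟨p, hp⟩ := h
  have : Nonempty {x // Ok o I S Ls x} := ⟨⟨(p, o), hp, .inl rfl⟩⟩
  refine Geo.iso e (fun x y => dd o I x.1 y.1) (fun x y => ?_) (fun x y z => dd1 x.2 y.2 z.2) fun x y n => ?_
  · rw [Subtype.ext_iff, Prod.ext_iff, dd]; split_ifs <;> grind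
  · obtain ⟨z, a, b⟩ := dd3 h0 h1 h2 h3 x.2 y.2 fun e => n (Subtype.ext e)
    exact ⟨⟨z, a⟩, b, fun w c => Subtype.ext (dd2 h0 h3 x.2 y.2 w.2 a c.1 b.1 c.2 b.2)⟩

end

end Pool.Agent.H.MP_f934c9_lc
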