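import Pool.Agent.H.MP_f934c9_lc.A
import Pool.Agent.Lib.lead.CXBase

set_option autoImplicit false

namespace Pool.Agent.H.MP_f934c9_lc
open Pool.Agent.Lib.CX

def pts (g : Gr) : List (List ℕ) :=
  [] :: ((List.range g.n).map (fun u => [u]) ++ (List.range g.n ×ˢ List.range g.n).map fun e => [e.1, e.2])
def Q (u v : ℕ) : List (List ℕ) := [[u], [v], [u, v], [v, u]]
def col (g : Gr) (p q : List ℕ) : Prop := ∃ u < g.n, ∃ v < g.n, g.adjB u v = true ∧ p ∈ Q u v ∧ q ∈ Q u v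
instance (g : Gr) (p q : List ℕ) : Decidable (col g p q) := by unfold col; infer_instance
def raw (g : Gr) : List (List (List ℕ)) := (List.range g.n).map (fun u => [[u]]) ++
  ((List.range g.n ×ˢ List.range g.n).filter fun e => g.adjB e.1 e.2).map (fun e => Q e.1 e.2) ++
  ((pts g ×ˢ pts g).filter fun e => e.1 ≠ e.2 ∧ ¬col g e.1 e.2).map fun e => [e.1, e.2]
def ln (g : Gr) (l : List (List ℕ)) : List (List ℕ) := (pts g).filter (· ∈ l)
def vs (g : Gr) : List (List ℕ × List (List ℕ)) :=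
  (pts g).map (·, []) ++ (raw g).flatMap fun l => (ln g l).map (·, ln g l)
instance (x y : List ℕ × List (List ℕ)) : Decidable (A [] x y) := by unfold A; infer_instance
def red (g : Gr) : Gr := mkGr (vs g) ((vs g ×ˢ vs g).filter fun e => A [] e.1 e.2)

set_option synthInstance.maxSize 2000 in
lemma pt_red : PT red := by
  have h1 : PT pts := by unfold pts; fun_prop
  have h2 : PT fun a : Gr × List ℕ × List ℕ => decide (col a.1 a.2.1 a.2.2) := by unfold col Q; fun_prop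
  have h3 : PT fun a : Gr × List ℕ × List ℕ => decide (a.2.1 ≠ a.2.2 ∧ ¬col a.1 a.2.1 a.2.2) :=
    PT.decide_and (by fun_prop) h2.decide_not
  have h4 : PT raw := (PT.append (by fun_prop) (by unfold Q; fun_prop)).append
    (PT.map (by fun_prop) (h3.filter (by fun_prop)))
  have h5 : PT vs := by unfold vs ln; fun_prop
  exact PT.mkGr h5 (PT.filter (by unfold A; fun_prop) (by fun_prop))

abbrev OK (g : Gr) := Ok [] (fun p L => p ∈ L) {p | p ∈ pts g} {L | ∃ l ∈ raw g, L = ln g l}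
abbrev FF (g : Gr) := F [] (fun p L => p ∈ L) {p | p ∈ pts g} {L | ∃ l ∈ raw g, L = ln g l}

lemma mem_vs {g : Gr} {x} : x ∈ vs g ↔ OK g x := by
  obtain ⟨p, L⟩ := x
  simp only [vs, Ok, List.mem_append, List.mem_map, List.mem_flatMap, Prod.mk.injEq, Set.mem_ofPred_eq]
  constructor
  · rintro (⟨_, h, rfl, rfl⟩ | ⟨l, h, _, k, rfl, rfl⟩)
    exacts [⟨h, .inl rfl⟩, ⟨List.mem_of_mem_filter k, .inr ⟨⟨l, h, rfl⟩, k⟩⟩]
  · rintro ⟨h, rfl | ⟨⟨l, a, rfl⟩, b⟩⟩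
    exacts [.inl ⟨_, h, rfl, rfl⟩, .inr ⟨l, a, _, b, rfl, rfl⟩]

def isoF (g : Gr) : (red g).G ≃g FF g := (mkGrIso _ _).trans
  ⟨Equiv.subtypeEquivRight fun _ => mem_vs, fun {x y} => by
    have h1 : (x.1, y.1) ∈ vs g ×ˢ vs g := List.pair_mem_product.2 ⟨x.2, y.2⟩
    have h2 : (y.1, x.1) ∈ vs g ×ˢ vs g := List.pair_mem_product.2 ⟨y.2, x.2⟩
    change A [] x.1 y.1 ↔ _
    simp only [SimpleGraph.comap_adj, Function.Embedding.subtype_apply, SimpleGraph.fromRel_adj, List.mem_filter,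
      h1, h2, true_and, decide_eq_true_eq, A]
    grind⟩

variable {g : Gr}

lemma mem_pts {p : List ℕ} : p ∈ pts g ↔ p = [] ∨ (∃ u < g.n, p = [u]) ∨ ∃ u < g.n, ∃ v < g.n, p = [u, v] := by
  simp only [pts, List.mem_cons, List.mem_append, List.mem_map, List.mem_range, Prod.exists, List.mem_product]
  grind

lemma mem_raw {l} : l ∈ raw g ↔ (∃ u < g.n, l = [[u]]) ∨ (∃ u < g.n, ∃ v < g.n, g.adjB u v = true ∧ l = Q u v) ∨
    ∃ p ∈ pts g, ∃ q ∈ pts g, p ≠ q ∧ ¬col g p q ∧ l = [p, q] := by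
  simp only [raw, List.mem_append, List.mem_map, List.mem_range, Prod.exists, List.mem_product, List.mem_filter,
    decide_eq_true_eq]
  grind

lemma mem_ln {l} (h : l ∈ raw g) {p} : p ∈ ln g l ↔ p ∈ l := by
  rw [ln, List.mem_filter, decide_eq_true_eq, and_iff_right_iff_imp]
  rcases mem_raw.1 h with ⟨u, a, rfl⟩ | ⟨u, a, v, b, -, rfl⟩ | ⟨u, a, v, b, -, -, rfl⟩
  · simp only [mem_pts]; grind
  · simp only [mem_pts, Q]; grind
  · grind

lemma adjB_ne {u v : ℕ} (h : g.adjB u v = true) : u ≠ v := by simp [Gr.adjB] at h; exact h.2.2.1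
lemma adjB_symm {u v : ℕ} (h : g.adjB u v = true) : g.adjB v u = true := by simp [Gr.adjB] at h ⊢; grind

lemma ex_line : ∀ p ∈ pts g, ∀ q ∈ pts g, p ≠ q → ∃ l ∈ raw g, p ∈ l ∧ q ∈ l := fun p a q b n => by
  by_cases h : col g p q
  · obtain ⟨u, c, v, d, e, f⟩ := h
    exact ⟨_, mem_raw.2 (.inr (.inl ⟨u, c, v, d, e, rfl⟩)), f⟩
  · exact ⟨_, mem_raw.2 (.inr (.inr ⟨p, a, q, b, n, h, rfl⟩)), by simp⟩

lemma red_geo (g : Gr) : Geo (red g).G := by
  refine geoF (by simp) ?_ (fun p a q b n => ?_) ?_ (isoF g) ⟨[], by simp [pts]⟩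
  · rintro _ ⟨l, -, rfl⟩ p h; exact List.mem_of_mem_filter h
  · obtain ⟨l, c, d⟩ := ex_line p a q b n
    exact ⟨_, ⟨l, c, rfl⟩, by simpa only [mem_ln c] using d⟩
  · rintro _ ⟨l, a, rfl⟩ _ ⟨m, b, rfl⟩ p q h1 h2 h3 h4
    rw [mem_ln a] at h1 h2
    rw [mem_ln b] at h3 h4
    refine or_iff_not_imp_left.2 fun n => List.filter_congr fun x _ => decide_eq_decide.2 ?_
    have k : ∀ {l m}, p ∈ l → q ∈ l → p ∈ m → q ∈ m → (∃ u < g.n, ∃ v < g.n, g.adjB u v = true ∧ l = Q u v) →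
        ¬∃ p ∈ pts g, ∃ q ∈ pts g, p ≠ q ∧ ¬col g p q ∧ m = [p, q] := by
      rintro _ _ h1 h2 h3 h4 ⟨u, a, v, b, c, rfl⟩ ⟨r, -, s, -, -, d, rfl⟩
      exact d ⟨u, a, v, b, c, by grind⟩
    rcases mem_raw.1 a with ⟨u, a, rfl⟩ | a | a
    · grind
    all_goals rcases mem_raw.1 b with ⟨u, b, rfl⟩ | b | b
    · grind
    · obtain ⟨u, -, v, -, c, rfl⟩ := a
      obtain ⟨u', -, v', -, d, rfl⟩ := b
      have := adjB_ne c
      have := adjB_ne d
      have : u = u' ∧ v = v' ∨ u = v' ∧ v = u' := by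
        simp only [Q, List.mem_cons, List.not_mem_nil, or_false] at h1 h2 h3 h4
        rcases h1 with rfl | rfl | rfl | rfl <;> rcases h2 with rfl | rfl | rfl | rfl <;> simp at n h3 h4 <;> omega
      simp only [Q]; grind
    · exact absurd b (k h1 h2 h3 h4 a)
    · grind
    · exact absurd a (k h3 h4 h1 h2 b)
    · obtain ⟨u, -, v, -, -, -, rfl⟩ := a
      obtain ⟨u', -, v', -, -, -, rfl⟩ := b
      clear k
      simp only [List.mem_cons, List.not_mem_nil, or_false] at *; grind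

def pt (u : Fin g.n) : {x // OK g x} := ⟨([u.1], []), mem_pts.2 (.inr (.inl ⟨u, u.2, rfl⟩)), .inl rfl⟩

lemma flag {l} (h : l ∈ raw g) {p} (k : p ∈ l) : OK g (p, ln g l) :=
  ⟨List.mem_of_mem_filter ((mem_ln h).2 k), .inr ⟨⟨l, h, rfl⟩, (mem_ln h).2 k⟩⟩

lemma leaf (x : {x // OK g x}) : (∃ y, (FF g).Adj x y ∧ ∀ z, (FF g).Adj y z → z = x) ↔ ∃ u, x = pt u := by
  constructor
  · rintro ⟨⟨⟨p, L⟩, a, b⟩, c, d⟩
    simp only [Subtype.forall, F, Subtype.ext_iff, pt] at c d ⊢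
    rcases b with b | ⟨⟨l, b, e⟩, f⟩ <;> dsimp only at *
    · subst b
      obtain ⟨⟨q, M⟩, e, f⟩ := x
      obtain ⟨⟨l, f', rfl⟩, -⟩ := f.resolve_left (by unfold A at c; grind)
      have n : 0 < g.n := by have := mem_raw.1 f'; simp only [mem_pts] at this; grind
      obtain ⟨r, r1, s, s1, h⟩ : ∃ r ∈ pts g, ∃ s ∈ pts g, p ≠ r ∧ p ≠ s ∧ r ≠ s ∧ (p = [] ∨ r = []) := by
        have a1 : [] ∈ pts g := by simp [pts]
        have a2 : [0] ∈ pts g := mem_pts.2 (by grind)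
        have a3 : [0, 0] ∈ pts g := mem_pts.2 (by grind)
        by_cases k : p = []
        · exact ⟨_, a2, _, a3, by simp [k]⟩
        by_cases k' : p = [0]
        · exact ⟨_, a1, _, a3, by simp [k']⟩
        · exact ⟨_, a1, _, a2, by simp [k, k']⟩
      obtain ⟨l1, b1, b2, b3⟩ := ex_line p a r r1 h.1
      obtain ⟨l2, c1, c2, c3⟩ := ex_line p a s s1 h.2.1
      have k1 := d _ (flag b1 b2) (by simp [A, List.ne_nil_of_mem ((mem_ln b1).2 b2)])
      have k2 := d _ (flag c1 c2) (by simp [A, List.ne_nil_of_mem ((mem_ln c1).2 c2)])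
      have : s ∈ l1 := by rw [← mem_ln b1, (Prod.mk.inj (k1.trans k2.symm)).2, mem_ln c1]; exact c3
      have := mem_raw.1 b1
      simp only [Q] at this; grind
    · subst e
      have n := List.ne_nil_of_mem f
      have k := d (p, []) ⟨a, .inl rfl⟩ (by simp [A, n])
      have : ∀ q ∈ l, q = p := fun q hq => by_contra fun m =>
        n (Prod.ext_iff.1 ((d _ (flag b hq) (by simp [A, n, Ne.symm m])).trans k.symm)).2
      rw [mem_ln b] at f
      rcases mem_raw.1 b with ⟨u, b', rfl⟩ | ⟨u, -, v, -, -, rfl⟩ | ⟨u, -, v, -, e, -, rfl⟩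
      · exact ⟨⟨u, b'⟩, by rw [← k, ← this _ List.mem_cons_self]⟩
      · simp [Q] at this; grind
      · simp at this; exact absurd (this.1.trans this.2.symm) e
  · rintro ⟨u, rfl⟩
    have h : [[u.1]] ∈ raw g := mem_raw.2 (.inl ⟨u, u.2, rfl⟩)
    have n := List.ne_nil_of_mem ((mem_ln h).2 List.mem_cons_self)
    refine ⟨⟨_, flag h List.mem_cons_self⟩, by simp [F, A, pt, n], fun ⟨⟨q, M⟩, a, b⟩ c => Subtype.ext ?_⟩
    have := @mem_ln _ _ h q
    simp only [F, A, pt] at *; grind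

lemma tri (u v : Fin g.n) : g.G.Adj u v ↔ u ≠ v ∧ ∃ a b c, (FF g).Adj (pt u) a ∧ (FF g).Adj (pt v) b ∧
    (FF g).Adj a b ∧ (FF g).Adj b c ∧ (FF g).Adj a c := by
  constructor
  · intro h
    have h1 : Q u v ∈ raw g := mem_raw.2 (.inr (.inl ⟨u, u.2, v, v.2, (g.adjB_iff _ _).2 h, rfl⟩))
    have n := List.ne_nil_of_mem ((mem_ln h1).2 List.mem_cons_self)
    exact ⟨h.ne, ⟨_, flag h1 (p := [u.1]) (by simp [Q])⟩, ⟨_, flag h1 (p := [v.1]) (by simp [Q])⟩,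
      ⟨_, flag h1 (p := [u.1, v.1]) (by simp [Q])⟩, by simp [F, A, pt, n, Fin.val_inj, h.ne]⟩
  · rintro ⟨n, ⟨⟨p, L⟩, _, a⟩, ⟨⟨q, M⟩, _, b⟩, ⟨⟨r, N⟩, _, c⟩, h⟩
    replace n := Fin.val_ne_of_ne n
    simp only [F, A, pt, ne_eq, Prod.mk.injEq] at h
    obtain ⟨rfl, rfl, rfl, rfl, h1, h2, h3⟩ : p = [u.1] ∧ q = [v.1] ∧ L = M ∧ L = N ∧ L ≠ [] ∧ r ≠ p ∧ r ≠ q := by
      clear a b c; grind
    dsimp only at a b c
    obtain ⟨⟨l, e, rfl⟩, a⟩ := a.resolve_left h1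
    replace b := (b.resolve_left h1).2
    replace c := (c.resolve_left h1).2
    rw [mem_ln e] at a b c
    rw [← g.adjB_iff]
    rcases mem_raw.1 e with ⟨u, b, rfl⟩ | ⟨u, -, v, -, k, rfl⟩ | ⟨u, -, v, -, e, -, rfl⟩
    · grind
    · have := adjB_symm k
      simp [Q] at a b; grind
    · grind

lemma half {h : Gr} (e : FF g ≃g FF h) : ∃ f : Fin g.n → Fin h.n, (∀ u, e (pt u) = pt (f u)) ∧
    ∀ u v, g.G.Adj u v → h.G.Adj (f u) (f v) := by
  have : ∀ u, ∃ v, e (pt u) = pt v := fun u => by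
    obtain ⟨y, a, b⟩ := (leaf _).2 ⟨u, rfl⟩
    refine (leaf _).1 ⟨e y, e.map_rel_iff.2 a, fun z c => ?_⟩
    obtain ⟨z, rfl⟩ := e.surjective z
    rw [b z (e.map_rel_iff.1 c)]
  choose f hf using this
  refine ⟨f, hf, fun u v k => ?_⟩
  obtain ⟨n, a, b, c, k⟩ := (tri u v).1 k
  refine (tri _ _).2 ⟨fun m => n ?_, e a, e b, e c, by simpa only [← hf, e.map_rel_iff] using k⟩
  have := e.injective ((hf u).trans (m ▸ (hf v).symm))
  simpa [pt, Fin.val_inj] using this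

lemma back {h : Gr} (e : FF g ≃g FF h) : Nonempty (g.G ≃g h.G) := by
  obtain ⟨f, a, b⟩ := half e
  obtain ⟨f', c, d⟩ := half e.symm
  have k : ∀ u, f' (f u) = u := fun u => by
    have := c (f u)
    rw [← a, RelIso.symm_apply_apply] at this
    simpa [pt, Fin.val_inj] using this.symm
  have k' : ∀ u, f (f' u) = u := fun u => by
    have := a (f' u)
    rw [← c, RelIso.apply_symm_apply] at this
    simpa [pt, Fin.val_inj] using this.symm
  exact ⟨⟨⟨f, f', k, k'⟩, fun {u v} => ⟨fun m => by simpa [k] using d _ _ m, b u v⟩⟩⟩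

def Hom (g h : Gr) (f f' : ℕ → ℕ) : Prop :=
  (∀ u < g.n, f u < h.n ∧ f' (f u) = u) ∧ ∀ u v, g.adjB u v = true → h.adjB (f u) (f v) = true

def mp (h : Gr) (f : ℕ → ℕ) (x : List ℕ × List (List ℕ)) := (x.1.map f, ln h (x.2.map (List.map f)))

lemma fwd {h : Gr} {f f' : ℕ → ℕ} (a : Hom g h f f') (b : Hom h g f' f) {x} (hx : OK g x) :
    OK h (mp h f x) ∧ mp g f' (mp h f x) = x ∧ ((mp h f x).2 = [] ↔ x.2 = []) := by
  have k : ∀ {g h : Gr} {f f'}, Hom g h f f' → ∀ p ∈ pts g, p.map f ∈ pts h ∧ (p.map f).map f' = p :=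
    fun a p hp => by have := a.1; simp only [mem_pts] at *; grind
  obtain ⟨p, L⟩ := x
  obtain ⟨h1, rfl | ⟨⟨l, h2, rfl⟩, h3⟩⟩ := hx
  · exact ⟨⟨(k a p h1).1, .inl (by simp [mp, ln])⟩, Prod.ext (k a p h1).2 (by simp [mp, ln]), by simp [mp, ln]⟩
  have e : ln h ((ln g l).map (List.map f)) = ln h (l.map (List.map f)) :=
    List.filter_congr fun x _ => by simp [mem_ln h2]
  have r : l.map (List.map f) ∈ raw h := by
    rcases mem_raw.1 h2 with ⟨u, c, rfl⟩ | ⟨u, c, v, d, m, rfl⟩ | ⟨u, c, v, d, m, n, rfl⟩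
    · exact mem_raw.2 (.inl ⟨_, (a.1 u c).1, rfl⟩)
    · exact mem_raw.2 (.inr (.inl ⟨_, (a.1 u c).1, _, (a.1 v d).1, a.2 u v m, rfl⟩))
    · refine mem_raw.2 (.inr (.inr ⟨_, (k a u c).1, _, (k a v d).1, fun e => m ?_, ?_, rfl⟩))
      · rw [← (k a u c).2, e, (k a v d).2]
      · rintro ⟨s, s1, t, t1, e1, e2, e3⟩
        refine n ⟨_, (b.1 s s1).1, _, (b.1 t t1).1, b.2 s t e1, ?_⟩
        rw [← (k a u c).2, ← (k a v d).2]
        exact ⟨List.mem_map_of_mem (f := List.map f') e2, List.mem_map_of_mem (f := List.map f') e3⟩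
  have m : p.map f ∈ l.map (List.map f) := List.mem_map_of_mem ((mem_ln h2).1 h3)
  simp only [mp, e]
  refine ⟨flag r m, Prod.ext (k a p h1).2 (List.filter_congr fun q hq => decide_eq_decide.2 ?_),
    iff_of_false (List.ne_nil_of_mem ((mem_ln r).2 m)) (List.ne_nil_of_mem h3)⟩
  simp only [List.mem_map, mem_ln r, exists_exists_and_eq_and]
  exact ⟨fun ⟨s, c, d⟩ => by rwa [← d, (k a s (List.mem_of_mem_filter ((mem_ln h2).2 c))).2],
    fun c => ⟨q, c, (k a q hq).2⟩⟩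

lemma forth {h : Gr} (e : g.G ≃g h.G) : Nonempty (FF g ≃g FF h) := by
  have : ∀ {g h : Gr} (e : g.G ≃g h.G), Hom g h (fun u => if k : u < g.n then e ⟨u, k⟩ else 0)
      fun u => if k : u < h.n then e.symm ⟨u, k⟩ else 0 := fun {g h} e =>
    ⟨fun u k => by simp [k], fun u v k => by
      have : u < g.n ∧ v < g.n := by simp [Gr.adjB] at k; exact ⟨k.1, k.2.1⟩
      simp only [this, dif_pos, h.adjB_iff, e.map_rel_iff]
      exact (g.adjB_iff ⟨u, _⟩ ⟨v, _⟩).1 k⟩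
  have a := this e
  have b := this e.symm
  refine ⟨⟨⟨fun x => ⟨_, (fwd a b x.2).1⟩, fun x => ⟨_, (fwd b a x.2).1⟩, fun x => Subtype.ext (fwd a b x.2).2.1,
    fun x => Subtype.ext (fwd b a x.2).2.1⟩, fun {x y} => ?_⟩⟩
  obtain ⟨-, c1, c2⟩ := fwd a b x.2
  obtain ⟨-, d1, d2⟩ := fwd a b y.2
  change A [] (mp _ _ x.1) (mp _ _ y.1) ↔ A [] x.1 y.1
  simp only [A, mp, Prod.ext_iff, ne_eq] at *
  grind

theorem red_iff (g h : Gr) : Nonempty (g.G ≃g h.G) ↔ Nonempty ((red g).G ≃g (red h).G) :=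
  ⟨fun ⟨e⟩ => (forth e).map fun k => (isoF g).trans (k.trans (isoF h).symm),
    fun ⟨e⟩ => back ((isoF g).symm.trans (e.trans (isoF h)))⟩

end Pool.Agent.H.MP_f934c9_lc
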